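import Mathlib
import Pool.Agent.H18.BSDefs
import Pool.Agent.H18.BSA
import Pool.Agent.H18.BSB

set_option autoImplicit false

namespace Pool.Agent.Results.MP_44afb3_an.CohenAlgebra

open Pool.Agent.H18.BS

universe u

/-- There is a complete Boolean algebra of subspaces of a complex Hilbert space which is not
lattice isomorphic to any reflexive Boolean algebra of subspaces of any complex Hilbert space. -/
theorem result :
    ∃ (H : Type) (_ : NormedAddCommGroup H) (_ : InnerProductSpace ℂ H) (_ : CompleteSpace H)
      (E : Set (Submodule ℂ H)), IsBoolAlg E ∧ IsCompleteBA E ∧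
      ∀ (K : Type u) [NormedAddCommGroup K] [InnerProductSpace ℂ K] [CompleteSpace K]
        (F : Set (Submodule ℂ K)), IsBoolAlg F → IsReflexive F → ¬ LatticeIso E F :=
  ⟨HH, inferInstance, inferInstance, inferInstance, EE, EE_boolAlg, EE_complete,
    fun _ _ _ _ F hB hR => no_iso F hB hR⟩

end Pool.Agent.Results.MP_44afb3_an.CohenAlgebra
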